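import Mathlib
import Pool.Agent.W608.PR.Final

set_option autoImplicit false

/-!
# An effective Alexander–Hirschowitz theorem in all dimensions

Let `r ≥ 2`, `m ≥ 1` and `D = (r m) ^ (r (r + 1) / 2)`. For `k` general points of `ℙ^r` and all
multiplicities `m 1, …, m k ≤ m`, the fat point scheme imposes maximal conditions

* in every degree `d ≥ D`, and
* in every degree `d` whatsoever, if its length is at least `binom (D + r) r`.

One and the same dense open set of points works for all `d`. So, for given `r` and `m`, a tuple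
`(r, k, m 1, …, m k, d)` with `1 ≤ m i ≤ m` for which the general fat point scheme fails to impose
maximal conditions has `d < D` and `k < binom (D + r) r`, and there are finitely many of them.

The points are `(1 : P i 0 : … : P i (r - 1))`.
-/

namespace Pool.Agent.Results.MP_1dafdd_ag.EffectiveAllDimensions

open MvPolynomial

/-- The fat point scheme with multiplicities `m i` at the points `(1 : P i 0 : … : P i (r - 1))`
of `ℙ^r` imposes maximal conditions on the forms of degree `d`. -/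
def Maximal {r k : ℕ} (m : Fin k → ℕ) (P : Fin k → Fin r → ℂ) (d : ℕ) : Prop :=
  (Module.finrank ℂ
    ↥(MvPolynomial.homogeneousSubmodule (Fin (r + 1)) ℂ d ⊓
      Submodule.restrictScalars ℂ
        (⨅ i : Fin k, (Ideal.span (Set.range fun j : Fin r =>
          (X j.succ - C (P i j) * X 0 : MvPolynomial (Fin (r + 1)) ℂ))) ^ (m i))) : ℤ) =
    max 0 ((Nat.choose (d + r) r : ℤ) - ∑ i, (Nat.choose (m i + r - 1) r : ℤ))

/-- For `k` general points of `ℙ^r` the fat point scheme with multiplicities `m i` imposes maximal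
conditions in degree `d`. -/
def GeneralMaximal (r k : ℕ) (m : Fin k → ℕ) (d : ℕ) : Prop :=
  ∃ F : MvPolynomial (Fin k × Fin r) ℂ, F ≠ 0 ∧
    ∀ P : Fin k → Fin r → ℂ,
      MvPolynomial.eval (fun ij : Fin k × Fin r => P ij.1 ij.2) F ≠ 0 → Maximal m P d

theorem result (r : ℕ) (hr : 2 ≤ r) (m : ℕ) (hm : 1 ≤ m) :
    (∀ (k : ℕ) (w : Fin k → ℕ), (∀ i, w i ≤ m) →
      ∃ F : MvPolynomial (Fin k × Fin r) ℂ, F ≠ 0 ∧
        ∀ P : Fin k → Fin r → ℂ,
          MvPolynomial.eval (fun ij : Fin k × Fin r => P ij.1 ij.2) F ≠ 0 →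
          ∀ d : ℕ,
            ((r * m) ^ (r * (r + 1) / 2) ≤ d ∨
              ((r * m) ^ (r * (r + 1) / 2) + r).choose r ≤ ∑ i, (w i + r - 1).choose r) →
            Maximal w P d) ∧
    (∀ (k : ℕ) (w : Fin k → ℕ) (d : ℕ), (∀ i, 1 ≤ w i ∧ w i ≤ m) → ¬ GeneralMaximal r k w d →
      d < (r * m) ^ (r * (r + 1) / 2) ∧ k < ((r * m) ^ (r * (r + 1) / 2) + r).choose r) ∧
    {x : Σ k : ℕ, (Fin k → ℕ) × ℕ | (∀ i, 1 ≤ x.2.1 i ∧ x.2.1 i ≤ m) ∧
      ¬ GeneralMaximal r x.1 x.2.1 x.2.2}.Finite := by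
  obtain ⟨D, hD⟩ : ∃ D, D = (r * m) ^ (r * (r + 1) / 2) := ⟨_, rfl⟩
  rw [← hD]
  have part1 : ∀ (k : ℕ) (w : Fin k → ℕ), (∀ i, w i ≤ m) →
      ∃ F : MvPolynomial (Fin k × Fin r) ℂ, F ≠ 0 ∧
        ∀ P : Fin k → Fin r → ℂ,
          MvPolynomial.eval (fun ij : Fin k × Fin r => P ij.1 ij.2) F ≠ 0 →
          ∀ d : ℕ, (D ≤ d ∨ (D + r).choose r ≤ ∑ i, (w i + r - 1).choose r) →
            Maximal w P d := by
    obtain ⟨E, rfl⟩ : ∃ E, r = E + 1 := ⟨r - 1, by omega⟩
    intro k w hw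
    have hG := W608.PR.G_all ℂ hm E (by omega)
    have hDd : W608.PR.Dd (E + 1) m = D := hD.symm
    rw [hDd] at hG
    obtain ⟨F, hF, hF'⟩ := W608.PR.all_degrees hm hG w hw
    refine ⟨F, hF, fun P hP d hd => ?_⟩
    have hE' : ∀ a : ℕ, a + (E + 1) = a + E + 1 := fun a => by omega
    simp only [hE', Nat.add_sub_cancel] at hd
    obtain ⟨h1, h2⟩ := hF' P hP d hd
    unfold Maximal
    simp only [hE', Nat.add_sub_cancel]
    rcases Nat.le_total ((d + E + 1).choose (E + 1)) (∑ i, (w i + E).choose (E + 1)) with h | h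
    · have h3 : Module.finrank ℂ ↥(H932R5.Vd (E := E) d w P) = 0 := (h1 h).finrank
      have h4 : (Module.finrank ℂ
          ↥(MvPolynomial.homogeneousSubmodule (Fin (E + 1 + 1)) ℂ d ⊓
            Submodule.restrictScalars ℂ
              (⨅ i : Fin k, (Ideal.span (Set.range fun j : Fin (E + 1) =>
                (X j.succ - C (P i j) * X 0 :
                  MvPolynomial (Fin (E + 1 + 1)) ℂ))) ^ (w i))) : ℤ) = 0 := by
        exact_mod_cast h3
      rw [h4]
      symm
      rw [max_eq_left]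
      have h5 : ((d + E + 1).choose (E + 1) : ℤ) ≤ ∑ i, ((w i + E).choose (E + 1) : ℤ) := by
        exact_mod_cast h
      linarith
    · have h3 := (h2 h).finrank
      have h4 : (∑ i, ((w i + E).choose (E + 1) : ℤ)) + (Module.finrank ℂ
          ↥(MvPolynomial.homogeneousSubmodule (Fin (E + 1 + 1)) ℂ d ⊓
            Submodule.restrictScalars ℂ
              (⨅ i : Fin k, (Ideal.span (Set.range fun j : Fin (E + 1) =>
                (X j.succ - C (P i j) * X 0 :
                  MvPolynomial (Fin (E + 1 + 1)) ℂ))) ^ (w i))) : ℤ) =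
          ((d + E + 1).choose (E + 1) : ℤ) := by
        exact_mod_cast h3
      have h5 : ∑ i, ((w i + E).choose (E + 1) : ℤ) ≤ ((d + E + 1).choose (E + 1) : ℤ) := by
        exact_mod_cast h
      rw [max_eq_right]
      · linarith
      · linarith
  have part2 : ∀ (k : ℕ) (w : Fin k → ℕ) (d : ℕ), (∀ i, 1 ≤ w i ∧ w i ≤ m) →
      ¬ GeneralMaximal r k w d → d < D ∧ k < (D + r).choose r := by
    intro k w d hw hfail
    obtain ⟨F, hF, hF'⟩ := part1 k w fun i => (hw i).2
    have h1 : ¬ (D ≤ d ∨ (D + r).choose r ≤ ∑ i, (w i + r - 1).choose r) := fun h =>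
      hfail ⟨F, hF, fun P hP => hF' P hP d h⟩
    push Not at h1
    refine ⟨h1.1, lt_of_le_of_lt ?_ h1.2⟩
    calc k = ∑ _i : Fin k, 1 := by
          rw [Finset.sum_const, Finset.card_univ, Fintype.card_fin, smul_eq_mul, mul_one]
      _ ≤ ∑ i, (w i + r - 1).choose r := Finset.sum_le_sum fun i _ =>
          Nat.choose_pos (by have := (hw i).1; omega)
  refine ⟨part1, part2, ?_⟩
  refine Set.Finite.subset (Set.Finite.biUnion (Set.finite_Iio ((D + r).choose r))
    (t := fun k => Sigma.mk k '' ({w : Fin k → ℕ | ∀ i, w i ∈ Set.Iic m} ×ˢ Set.Iio D))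
    fun k _ => ((Set.Finite.pi' fun _ => Set.finite_Iic m).prod (Set.finite_Iio D)).image _) ?_
  rintro ⟨k, w, d⟩ ⟨h1, h2⟩
  obtain ⟨h3, h4⟩ := part2 k w d h1 h2
  exact Set.mem_biUnion (Set.mem_Iio.2 h4) ⟨(w, d), ⟨fun i => (h1 i).2, h3⟩, rfl⟩

end Pool.Agent.Results.MP_1dafdd_ag.EffectiveAllDimensions
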